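import Mathlib
import Pool.Agent.MP_fe3998_an.LS.Top
import Pool.Agent.MP_fe3998_an.UB.Top

/-! The largest norm of `p(T)` over operators `T` with power bound `c` and polynomials of degree
at most `N` bounded by one on the disc has the order `log N / exp (Θ (log* N))`. -/

set_option autoImplicit false

namespace Pool.Agent.Results.MP_fe3998_an.LogOrder

universe u

theorem result (c : ℝ) (hc : 1 < c) :
    ∃ (H₀ : Type) (_ : NormedAddCommGroup H₀) (_ : InnerProductSpace ℂ H₀) (_ : CompleteSpace H₀)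
      (T₀ : H₀ →L[ℂ] H₀) (C θ : ℝ), (∀ n : ℕ, ‖T₀ ^ n‖ ≤ c) ∧ 1 ≤ C ∧ 0 < θ ∧ θ < 1 ∧
      ∀ h N : ℕ, 2 ≤ N → (fun x : ℕ => 2 ^ x)^[h] 1 ≤ N → N ≤ (fun x : ℕ => 2 ^ x)^[h + 1] 1 →
        (∃ p : Polynomial ℂ, p.natDegree ≤ N ∧ (∀ z : ℂ, ‖z‖ ≤ 1 → ‖p.eval z‖ ≤ 1) ∧
          Real.log N / C ^ (h + 1) ≤ ‖Polynomial.aeval T₀ p‖) ∧
        ∀ (H : Type u) [NormedAddCommGroup H] [InnerProductSpace ℂ H] [CompleteSpace H]
          (T : H →L[ℂ] H), (∀ n : ℕ, ‖T ^ n‖ ≤ c) → ∀ p : Polynomial ℂ, p.natDegree ≤ N →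
          (∀ z : ℂ, ‖z‖ ≤ 1 → ‖p.eval z‖ ≤ 1) →
          ‖Polynomial.aeval T p‖ ≤ C * θ ^ h * Real.log N := by
  obtain ⟨H₀, i1, i2, i3, T₀, h0, C, hC, hl⟩ := Pool.Agent.MP_fe3998_an.LS.lower c hc
  obtain ⟨C', θ, hC', t0, t1, hu⟩ := Pool.Agent.MP_fe3998_an.UB.upper.{u} c hc.le
  refine ⟨H₀, i1, i2, i3, T₀, max C C', θ, h0, le_max_of_le_left hC, t0, t1,
    fun h N hN a b => ⟨?_, fun H _ _ _ T hT p hp h1 => (hu H T hT h N hN a p hp h1).trans ?_⟩⟩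
  · obtain ⟨p, p1, p2, p3⟩ := hl (h + 1) N hN b
    refine ⟨p, p1, p2, le_trans ?_ p3⟩
    exact div_le_div_of_nonneg_left (Real.log_natCast_nonneg N) (by positivity)
      (pow_le_pow_left₀ (by linarith) (le_max_left _ _) _)
  · exact mul_le_mul_of_nonneg_right (mul_le_mul_of_nonneg_right (le_max_right _ _)
      (by positivity)) (Real.log_natCast_nonneg N)

end Pool.Agent.Results.MP_fe3998_an.LogOrder
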