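import Mathlib
import Pool.Agent.MP_fe3998_an.Enar

set_option autoImplicit false

namespace Pool.Agent.Results.MP_fe3998_an.NotArensRegular

open Pool.Agent.MP_fe3998_an
open scoped NNReal ENNReal

/-- If `q` is a bounded homomorphism from a normed algebra `A` into Peller's space `𝒳` along which
polynomials lift with a uniform bound, then `ℓ^∞` embeds into the quotient of the dual of `A` by
the functionals at which the two Arens products agree. -/
theorem result (A : Type) [NonUnitalNormedRing A] [NormedSpace ℂ A] [IsScalarTower ℂ A A]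
    [SMulCommClass ℂ A A] (q : A →ₙₐ[ℂ] PowerSeries ℂ) (C : ℝ≥0)
    (hq : ∀ a : A, xNorm (q a) ≤ C * ‖a‖ₑ)
    (hl : ∀ p : Polynomial ℂ, ∃ a : A, q a = p ∧ ‖a‖ₑ ≤ C * xNorm p) :
    ∃ (J : BoundedContinuousFunction ℕ ℂ →L[ℂ] (A →L[ℂ] ℂ)) (c : ℝ), 0 < c ∧
      ∀ β : BoundedContinuousFunction ℕ ℂ, FarFromWap (J β) (c * ‖β‖) :=
  linf_mod_wap q C hq hl

end Pool.Agent.Results.MP_fe3998_an.NotArensRegular
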