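import Mathlib
import Pool.Agent.MP_fe3998_an.IV.Top

/-!
Norm control of inverses in the space of the problem, with the sharp exponent.
-/

set_option autoImplicit false

namespace Pool.Agent.Results.MP_fe3998_an.SharpInversion

open Pool.Agent.MP_fe3998_an
open scoped ENNReal NNReal

theorem result :
    (∃ C : ℝ≥0, ∀ (φ : PowerSeries ℂ) (δ : ℝ≥0), 0 < δ → xNorm φ ≠ ∞ →
      (∀ z : ℂ, ‖z‖ < 1 → (δ : ℝ) ≤ ‖∑' n : ℕ, PowerSeries.coeff n φ * z ^ n‖) →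
      xNorm φ⁻¹ * (δ : ℝ≥0∞) ^ 3 ≤ C * xNorm φ ^ 2) ∧
    ∀ η : ℝ, 0 < η → ∀ A₀ : ℝ≥0, ∃ (A : ℝ≥0) (φ : PowerSeries ℂ), A₀ ≤ A ∧ xNorm φ ≤ A ∧
      (∀ z : ℂ, ‖z‖ < 1 → 1 ≤ ‖∑' n : ℕ, PowerSeries.coeff n φ * z ^ n‖) ∧
      (A : ℝ≥0∞) ^ (2 - η) ≤ xNorm φ⁻¹ :=
  ⟨IV.upper, IV.lower⟩

end Pool.Agent.Results.MP_fe3998_an.SharpInversion
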