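import Mathlib
import Pool.Agent.MP_fe3998_an.PR.Top

/-!
The sharp form of the product estimate in the space of the problem.
-/

set_option autoImplicit false

namespace Pool.Agent.Results.MP_fe3998_an.SharpProduct

open Pool.Agent.MP_fe3998_an
open scoped ENNReal NNReal

theorem result : ∃ c C : ℝ≥0, 0 < c ∧
    (∀ φ ψ : PowerSeries ℂ, xNorm φ ≠ ∞ → xNorm ψ ≠ ∞ →
      xNorm (φ * ψ) ^ 2 ≤
        C * xNorm φ * xNorm ψ * (xNorm φ * supNorm ψ + supNorm φ * xNorm ψ)) ∧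
    ∀ m : ℕ, ∃ φ ψ : PowerSeries ℂ, supNorm φ ≤ 1 ∧ supNorm ψ ≤ 1 ∧
      xNorm φ ≤ m ∧ xNorm ψ ≤ m ∧ c * (m : ℝ≥0∞) ^ 3 ≤ xNorm (φ * ψ) ^ 2 := by
  obtain ⟨C, hC⟩ := PR.upper
  refine ⟨(1200 ^ 2)⁻¹, C, by positivity, hC, fun m => ?_⟩
  obtain ⟨φ, ψ, h1, h2, h3, h4, h5⟩ := PR.lower m
  refine ⟨φ, ψ, h1, h2, h3, h4, ?_⟩
  rw [ENNReal.coe_inv (by positivity)]
  push_cast
  exact (ENNReal.inv_mul_le_iff (by positivity) (by finiteness)).2 h5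

end Pool.Agent.Results.MP_fe3998_an.SharpProduct
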